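import Pool.Agent.Helper2.AG.Defs
import Pool.Agent.Helper43.HY.B3

/-!
Project AG (MP_b8862a_ag), block X2: types `B`, `C`, `D`, the shapes of the highest weight and of the grading element.
-/

set_option linter.unusedSectionVars false
set_option linter.unusedVariables false

open Module PF TF PW

namespace AG

variable {E : Type*} [NormedAddCommGroup E] [InnerProductSpace ℝ E] {Φ X : Finset E} {n s m d : ℕ} {l y v : E} {c : ℝ}
  {e : Fin m → E}

/-- a reflection permutes the absolute values of the coordinates -/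
theorem refl_perm (F : Fr Φ m e c d) {a : E} (ha : a ∈ Φ) (x : E) :
    ∃ τ : Equiv.Perm (Fin m), ∀ i, |cx e c (x - co a x • a) i| = |cx e c x (τ i)| := by
  classical
  have hc := F.pos
  have key : ∀ (s t : ℤ), (s = 1 ∨ s = -1) → (t = 1 ∨ t = -1) → ∀ i j, i ≠ j →
      ∃ τ : Equiv.Perm (Fin m), ∀ k, |cx e c (x - co (rt e c s t i j) x • rt e c s t i j) k| = |cx e c x (τ k)| := by
    intro s t hs ht i j hij
    refine ⟨Equiv.swap i j, fun k => ?_⟩
    rw [F.co_rt hij hs ht, F.cx_sub_smul]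
    by_cases hki : k = i
    · subst hki
      rw [if_pos rfl, if_neg hij.symm, Equiv.swap_apply_left]
      rcases hs with rfl | rfl <;> rcases ht with rfl | rfl <;> push_cast <;>
        first
        | (congr 1; ring1)
        | (rw [← abs_neg]; congr 1; ring1)
    · by_cases hkj : k = j
      · subst hkj
        rw [if_pos rfl, if_neg hij, Equiv.swap_apply_right]
        rcases hs with rfl | rfl <;> rcases ht with rfl | rfl <;> push_cast <;>
          first
          | (congr 1; ring1)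
          | (rw [← abs_neg]; congr 1; ring1)
      · rw [if_neg (Ne.symm hki), if_neg (Ne.symm hkj), Equiv.swap_apply_of_ne_of_ne hki hkj]
        congr 1
        ring
  have key2 : ∀ (r : ℝ), r ≠ 0 → ∀ i, ∃ τ : Equiv.Perm (Fin m), ∀ k, |cx e c (x - co (r • e i) x • r • e i) k| =
      |cx e c x (τ k)| := by
    intro r hr i
    refine ⟨1, fun k => ?_⟩
    have h1 : co (r • e i) x • r • e i = (2 * inner ℝ x (e i) : ℝ) • e i := by
      unfold co
      rw [inner_smul_right, inner_smul_right, inner_smul_left, F.inner_e, if_pos rfl, smul_smul]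
      simp only [conj_trivial]
      congr 1
      field_simp
    rw [h1]
    unfold cx
    rw [inner_sub_left, inner_smul_left, F.inner_e]
    simp only [conj_trivial, Equiv.Perm.coe_one, id_eq]
    by_cases hik : i = k
    · subst hik
      rw [if_pos rfl, ← abs_neg]
      congr 1
      ring
    · rw [if_neg hik]
      congr 1
      ring
  rcases (F.mem a).1 ha with ⟨i, j, hij, h | h | h⟩ | ⟨hd, i, h | h⟩
  · have h1 : a = rt e c 1 1 i j := by rw [h]; simp [rt]
    rw [h1]
    exact key 1 1 (Or.inl rfl) (Or.inl rfl) i j hij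
  · have h1 : a = rt e c 1 (-1) i j := by rw [h]; simp [rt, sub_eq_add_neg]
    rw [h1]
    exact key 1 (-1) (Or.inl rfl) (Or.inr rfl) i j hij
  · have h1 : a = rt e c (-1) (-1) i j := by
      rw [h]
      simp only [rt, Int.cast_neg, Int.cast_one, neg_smul, one_smul]
      rw [← smul_neg, neg_add]
    rw [h1]
    exact key (-1) (-1) (Or.inr rfl) (Or.inr rfl) i j hij
  · rw [h]
    refine key2 _ ?_ i
    have : (d : ℝ) ≠ 0 := by exact_mod_cast hd
    exact mul_ne_zero this hc.ne'
  · rw [h, ← neg_smul]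
    refine key2 _ ?_ i
    have : (d : ℝ) ≠ 0 := by exact_mod_cast hd
    exact neg_ne_zero.2 (mul_ne_zero this hc.ne')

/-- a weight of maximal level in the orbit of the highest weight -/
theorem exists_max {T : ℕ} (h : In Φ X n T l y) (F : Fr Φ m e c d) : ∃ x ∈ X, cas Φ x = cas Φ l ∧
    (∃ σ : Equiv.Perm (Fin m), ∀ i, |cx e c x i| = |cx e c l (σ i)|) ∧
    ∀ a ∈ Φ, 0 ≤ (inner ℝ x a : ℝ) * inner ℝ a y := by
  classical
  obtain ⟨x, hx, hmax⟩ := Finset.exists_max_image
    (X.filter fun x => cas Φ x = cas Φ l ∧ ∃ σ : Equiv.Perm (Fin m), ∀ i, |cx e c x i| = |cx e c l (σ i)|)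
    (fun x => (inner ℝ x y : ℝ))
    ⟨l, Finset.mem_filter.2 ⟨h.l_mem, rfl, 1, fun i => rfl⟩⟩
  obtain ⟨hxX, hx1, σ, hσ⟩ := Finset.mem_filter.1 hx
  refine ⟨x, hxX, hx1, ⟨σ, hσ⟩, ?_⟩
  intro a ha
  obtain ⟨τ, hτ⟩ := refl_perm F ha x
  have h1 := hmax (x - co a x • a) (Finset.mem_filter.2 ⟨Sat.refl27 h.sat ha (h.rs.neg_mem ha) hxX, by
    rw [cas_refl43 h.rs ha, hx1], τ.trans σ, fun i => by
    rw [hτ i, hσ (τ i)]
    rfl⟩)
  rw [inner_sub_left, inner_smul_left] at h1
  simp only [conj_trivial] at h1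
  have h2 : 0 ≤ co a x * inner ℝ a y := by linarith
  unfold co at h2
  have h3 := h.rs.inner_pos ha
  have h4 : 2 * inner ℝ x a / inner ℝ a a * inner ℝ a y = (inner ℝ x a * inner ℝ a y) * (2 / inner ℝ a a) := by
    field_simp
  rw [h4] at h2
  by_contra hcon
  push Not at hcon
  have h5 : (0 : ℝ) < 2 / inner ℝ a a := by positivity
  nlinarith

/-- the Casimir constant of a vector -/
theorem cas_real (F : Fr Φ m e c d) (hm : 2 ≤ m) {x : E} (hx : x ∈ Submodule.span ℝ (Φ : Set E))
    (z : Fin m → ℝ) (hz : ∀ i, cx e c x i = z i) :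
    cas Φ x = c ^ 2 * (∑ i, (z i) ^ 2 +
      ∑ p ∈ (Finset.univ : Finset (Fin m)).offDiag, max |z p.1| |z p.2| + d * ∑ i, |z i|) := by
  have hc := F.pos
  have h2 : ∀ i, inner ℝ x (e i) = c * z i := by
    intro i
    have := hz i
    unfold cx at this
    field_simp at this
    linarith
  have h3 : (inner ℝ x x : ℝ) = c ^ 2 * ∑ i, (z i) ^ 2 := by
    rw [F.inner_eq hm hx, Finset.mul_sum]
    refine Finset.sum_congr rfl fun i _ => ?_
    rw [h2]; ring
  have h4 := F.sum (fun a => |inner ℝ x a|) (fun a => by rw [inner_neg_right, abs_neg])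
  have h5 : ∀ p : Fin m × Fin m, |(inner ℝ x (rt e c 1 1 p.1 p.2) : ℝ)| + |(inner ℝ x (rt e c 1 (-1) p.1 p.2) : ℝ)| =
      c ^ 2 * (2 * max |z p.1| |z p.2|) := by
    intro p
    rw [inner_rt, inner_rt, h2, h2]
    have h6 : c * (((1 : ℤ) : ℝ) * (c * z p.1) + ((1 : ℤ) : ℝ) * (c * z p.2)) = c ^ 2 * (z p.1 + z p.2) := by
      push_cast; ring
    have h7 : c * (((1 : ℤ) : ℝ) * (c * z p.1) + ((-1 : ℤ) : ℝ) * (c * z p.2)) = c ^ 2 * (z p.1 - z p.2) := by
      push_cast; ring
    rw [h6, h7, abs_mul, abs_mul, abs_of_pos (by positivity : (0 : ℝ) < c ^ 2), ← mul_add]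
    congr 1
    rcases le_total |z p.1| |z p.2| with h | h
    · rw [max_eq_right h]
      rcases abs_cases (z p.1) with h8 | h8 <;> rcases abs_cases (z p.2) with h9 | h9 <;>
        rcases abs_cases (z p.1 + z p.2) with h10 | h10 <;>
        rcases abs_cases (z p.1 - z p.2) with h11 | h11 <;> linarith
    · rw [max_eq_left h]
      rcases abs_cases (z p.1) with h8 | h8 <;> rcases abs_cases (z p.2) with h9 | h9 <;>
        rcases abs_cases (z p.1 + z p.2) with h10 | h10 <;>
        rcases abs_cases (z p.1 - z p.2) with h11 | h11 <;> linarith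
  have h6 : ∀ i, |(inner ℝ x (((d : ℝ) * c) • e i) : ℝ)| = c ^ 2 * (d * |z i|) := by
    intro i
    rw [inner_smul_right, h2]
    have h7 : (d : ℝ) * c * (c * z i) = (c ^ 2 * d) * z i := by ring
    rw [h7, abs_mul, abs_of_nonneg (by positivity : (0 : ℝ) ≤ c ^ 2 * d)]
    ring
  unfold cas
  rw [h3, h4]
  simp only [h5, h6]
  rw [← Finset.mul_sum, ← Finset.mul_sum, ← Finset.mul_sum, ← Finset.mul_sum]
  by_cases hd : d = 0
  · rw [if_pos hd, hd]
    push_cast
    ring
  · rw [if_neg hd]
    ring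

/-- the Casimir constant of a vector with the coordinates `± 1/2` -/
theorem cas_half (F : Fr Φ m e c d) (hm : 2 ≤ m) {x : E} (hx : x ∈ Submodule.span ℝ (Φ : Set E))
    (hz : ∀ i, |cx e c x i| = 1 / 2) : cas Φ x = c ^ 2 * (m * (2 * m - 1 + 2 * d)) / 4 := by
  rw [cas_real F hm hx (fun i => cx e c x i) (fun i => rfl)]
  simp only [hz, max_self]
  have h1 : ∀ i, cx e c x i ^ 2 = 1 / 4 := by
    intro i
    rw [← sq_abs, hz i]
    norm_num
  simp only [h1, Finset.sum_const, nsmul_eq_mul, Finset.card_univ, Fintype.card_fin]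
  rw [offDiag_card]
  ring

/-- The combinatorial core of the half odd case: `w` twice the coordinates of the weight, `Y` twice the coordinates of the
grading element. -/
theorem core_half {m : ℕ} (hm : 9 ≤ m) {w Y : Fin m → ℤ} (hw : ∀ i, Odd (w i))
    (hp : ∀ i j, i ≠ j → 0 ≤ (w i + w j) * (Y i + Y j))
    (hq : ∀ i j, i ≠ j → 0 ≤ (w i - w j) * (Y i - Y j)) (hsum : ∑ i, w i * Y i ≤ 4) (h4 : (4 : ℤ) ∣ ∑ i, w i * Y i)
    (hpar : ∀ i j, Even (Y i - Y j)) (hY : ∃ i, Y i ≠ 0) :
    (∀ i, |w i| = 1) ∧ (∑ i, Y i ^ 2 = 16 ∨ ∑ i, Y i ^ 2 = 8) := by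
  classical
  have hw0 : ∀ i, w i ≠ 0 := by
    intro i h
    have := hw i
    rw [h] at this
    exact absurd this (by decide)
  have hpq : ∀ i j, i ≠ j → 0 ≤ w i * Y i + w j * Y j := by
    intro i j hij
    have h1 := hp i j hij
    have h2 := hq i j hij
    nlinarith
  -- no negative term
  have hnn : ∀ i, 0 ≤ w i * Y i := by
    intro k
    by_contra hk
    push Not at hk
    have h1 : ∀ j ∈ Finset.univ.erase k, -(w k * Y k) ≤ w j * Y j := by
      intro j hj
      have h2 := hpq j k (Finset.mem_erase.1 hj).1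
      linarith
    have h2 := Finset.card_nsmul_le_sum _ _ _ h1
    rw [Finset.card_erase_of_mem (Finset.mem_univ _), Finset.card_univ, Fintype.card_fin] at h2
    have h3 : ∑ i, w i * Y i = w k * Y k + ∑ i ∈ Finset.univ.erase k, w i * Y i :=
      (Finset.add_sum_erase _ _ (Finset.mem_univ k)).symm
    obtain ⟨q, rfl⟩ : ∃ q, m = q + 9 := ⟨m - 9, by omega⟩
    have h4 : q + 9 - 1 = q + 8 := by omega
    rw [h4, nsmul_eq_mul] at h2
    push_cast at h2
    have h5 : (0 : ℤ) ≤ q := Int.natCast_nonneg q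
    nlinarith
  obtain ⟨i0, hi0⟩ := hY
  have hpos0 : 0 < w i0 * Y i0 := lt_of_le_of_ne (hnn i0) (Ne.symm (mul_ne_zero (hw0 i0) hi0))
  -- all even
  have hE : ∀ i, ∃ q, Y i = 2 * q := by
    rcases Int.even_or_odd (Y i0) with hev | hodd
    · intro i
      obtain ⟨a, ha⟩ := hpar i i0
      obtain ⟨b, hb⟩ := hev
      exact ⟨a + b, by omega⟩
    · exfalso
      have h1 : ∀ j ∈ (Finset.univ : Finset (Fin m)), 1 ≤ w j * Y j := by
        intro j _
        have h2 : Y j ≠ 0 := by
          intro h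
          obtain ⟨a, ha⟩ := hpar j i0
          obtain ⟨b, hb⟩ := hodd
          omega
        have h3 := lt_of_le_of_ne (hnn j) (Ne.symm (mul_ne_zero (hw0 j) h2))
        omega
      have h2 := Finset.card_nsmul_le_sum _ _ _ h1
      rw [Finset.card_univ, Fintype.card_fin, nsmul_eq_mul, mul_one] at h2
      have h3 : (9 : ℤ) ≤ m := by exact_mod_cast hm
      linarith
  choose q hqq using hE
  have hs2 : ∑ i, w i * Y i = 2 * ∑ i, w i * q i := by
    rw [Finset.mul_sum]
    refine Finset.sum_congr rfl fun i _ => ?_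
    rw [hqq i]
    ring
  have hnq : ∀ i, 0 ≤ w i * q i := by
    intro i
    have h1 := hnn i
    rw [hqq i] at h1
    nlinarith
  have hq0 : q i0 ≠ 0 := by
    intro h
    apply hi0
    rw [hqq i0, h]
    rfl
  have hposq : 1 ≤ w i0 * q i0 := by
    have := lt_of_le_of_ne (hnq i0) (Ne.symm (mul_ne_zero (hw0 i0) hq0))
    omega
  have hsq : ∑ i, w i * q i = 2 := by
    have h1 := Finset.single_le_sum (fun j _ => hnq j) (Finset.mem_univ i0)
    rw [hs2] at hsum h4
    obtain ⟨k, hk⟩ := h4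
    omega
  have hw1 : ∀ i, 1 ≤ |w i| := fun i => Int.one_le_abs (hw0 i)
  -- the other coordinates of the weight
  have hother : ∀ i j, i ≠ j → q j = 0 → q i ≠ 0 → |w i| = 1 → |w j| = 1 := by
    intro i j hij hqj hqi hwi
    have h1 := hp i j hij
    have h2 := hq i j hij
    rw [hqq i, hqq j, hqj] at h1 h2
    have h3 : |w j * q i| ≤ w i * q i := by
      rw [abs_le]
      constructor <;> nlinarith
    have h4 : w i * q i = |w i| * |q i| := by rw [← abs_mul, abs_of_nonneg (hnq i)]
    rw [abs_mul, h4, hwi] at h3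
    have h5 : 0 < |q i| := abs_pos.2 hqi
    have h6 : |w j| ≤ 1 := by
      by_contra hcon
      push Not at hcon
      nlinarith
    have := hw1 j
    omega
  -- the remaining sum
  have hrest : ∑ i ∈ Finset.univ.erase i0, w i * q i = 2 - w i0 * q i0 := by
    have := Finset.add_sum_erase Finset.univ (fun i => w i * q i) (Finset.mem_univ i0)
    linarith
  by_cases h2 : w i0 * q i0 = 2
  · -- one coordinate
    have hz : ∀ j, j ≠ i0 → q j = 0 := by
      intro j hj
      have h3 : ∑ i ∈ Finset.univ.erase i0, w i * q i = 0 := by rw [hrest, h2]; norm_num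
      have h5 := (Finset.sum_eq_zero_iff_of_nonneg (fun i _ => hnq i)).1 h3 j (Finset.mem_erase.2 ⟨hj, Finset.mem_univ j⟩)
      rcases mul_eq_zero.1 h5 with h | h
      · exact absurd h (hw0 j)
      · exact h
    have h3 : |w i0| * |q i0| = 2 := by rw [← abs_mul, h2]; rfl
    have h5 : |w i0| = 1 := by
      have h6 := hw1 i0
      have h7 : 1 ≤ |q i0| := Int.one_le_abs hq0
      have h8 : |w i0| ≤ 2 := by nlinarith
      have h9 : |w i0| ≠ 2 := by
        intro h
        obtain ⟨a, ha⟩ := hw i0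
        rcases abs_choice (w i0) with h' | h' <;> omega
      omega
    rw [h5, one_mul] at h3
    refine ⟨fun j => ?_, Or.inl ?_⟩
    · by_cases hj : j = i0
      · rw [hj]; exact h5
      · exact hother i0 j (Ne.symm hj) (hz j hj) hq0 h5
    · rw [Finset.sum_eq_single i0 (fun j _ hj => by rw [hqq j, hz j hj]; norm_num) (fun h => absurd (Finset.mem_univ _) h),
        hqq i0, mul_pow, ← sq_abs (q i0), h3]
      norm_num
  · have h1 : w i0 * q i0 = 1 := by
      have := Finset.single_le_sum (fun j _ => hnq j) (Finset.mem_univ i0)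
      rw [hsq] at this
      omega
    have hrest1 : ∑ i ∈ Finset.univ.erase i0, w i * q i = 1 := by rw [hrest, h1]; norm_num
    obtain ⟨i1, hi1, hi1'⟩ : ∃ i ∈ Finset.univ.erase i0, w i * q i ≠ 0 := by
      by_contra hcon
      push Not at hcon
      rw [Finset.sum_eq_zero hcon] at hrest1
      omega
    have hne : i1 ≠ i0 := (Finset.mem_erase.1 hi1).1
    have h1' : w i1 * q i1 = 1 := by
      have h5 := Finset.single_le_sum (f := fun i => w i * q i) (fun j _ => hnq j) hi1
      rw [hrest1] at h5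
      have := hnq i1
      omega
    have hrest2 : ∑ i ∈ (Finset.univ.erase i0).erase i1, w i * q i = 0 := by
      have := Finset.add_sum_erase (Finset.univ.erase i0) (fun i => w i * q i) hi1
      rw [hrest1] at this
      linarith
    have hz : ∀ j, j ≠ i0 → j ≠ i1 → q j = 0 := by
      intro j hj hj'
      have h5 := (Finset.sum_eq_zero_iff_of_nonneg (fun i _ => hnq i)).1 hrest2 j
        (Finset.mem_erase.2 ⟨hj', Finset.mem_erase.2 ⟨hj, Finset.mem_univ j⟩⟩)
      rcases mul_eq_zero.1 h5 with h | h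
      · exact absurd h (hw0 j)
      · exact h
    have hunit : ∀ i, w i * q i = 1 → |w i| = 1 ∧ |q i| = 1 := by
      intro i hi
      have h5 : |w i| * |q i| = 1 := by rw [← abs_mul, hi]; rfl
      have h6 := hw1 i
      have h7 : 0 ≤ |q i| := abs_nonneg _
      have h8 : |q i| ≠ 0 := by
        intro h
        rw [h, mul_zero] at h5
        omega
      constructor <;> nlinarith [Int.one_le_abs (abs_ne_zero.1 h8)]
    obtain ⟨a1, a2⟩ := hunit i0 h1
    obtain ⟨b1, b2⟩ := hunit i1 h1'
    refine ⟨fun j => ?_, Or.inr ?_⟩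
    · by_cases hj : j = i0
      · rw [hj]; exact a1
      · by_cases hj' : j = i1
        · rw [hj']; exact b1
        · exact hother i0 j (Ne.symm hj) (hz j hj hj') hq0 a1
    · rw [← Finset.add_sum_erase _ _ (Finset.mem_univ i0), ← Finset.add_sum_erase _ _ hi1,
        Finset.sum_eq_zero (fun j hj => by
          rw [hqq j, hz j (Finset.mem_erase.1 (Finset.mem_erase.1 hj).2).1 (Finset.mem_erase.1 hj).1]
          norm_num), hqq i0, hqq i1, mul_pow, mul_pow, ← sq_abs (q i0), ← sq_abs (q i1), a2, b2]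
      norm_num

/-- **BLOCK X2** -/
theorem shape {e : Fin m → E} (h : D3 Φ X n s l y v) (F : Fr Φ m e c d) (hm : 9 ≤ m) :
    n = 4 * s ∨ TypeB Φ X ∨ TypeD Φ X ∨ ShD1 Φ m e c d l y ∨ ∃ K, 2 ≤ K ∧ ShD2 Φ m e c d K l y := by
  classical
  have hI := h.inn
  have h3 := h.lev
  have hc := F.pos
  have hc2 : (0 : ℝ) < c ^ 2 := by positivity
  have hm2 : 2 ≤ m := by omega
  have hmr : (9 : ℝ) ≤ m := by exact_mod_cast hm
  have hnpos := hI.n_pos
  -- the weight of maximal level
  obtain ⟨x, hx, hx1, ⟨σ, hσ⟩, hx3⟩ := exists_max hI F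
  have hxsp := Sat.span27 hI.sat hx
  -- the coordinates of `y`
  have hYex : ∀ i, ∃ k : ℤ, 2 * c * inner ℝ y (e i) = (k : ℝ) := by
    intro i
    obtain ⟨j, hij⟩ : ∃ j, i ≠ j := by
      have : Nontrivial (Fin m) := Fin.nontrivial_iff_two_le.2 hm2
      obtain ⟨j, hj⟩ := exists_ne i
      exact ⟨j, hj.symm⟩
    obtain ⟨a, ha⟩ := hI.lev _ (F.rt_mem hij (s := 1) (t := 1) (Or.inl rfl) (Or.inl rfl))
    obtain ⟨b, hb⟩ := hI.lev _ (F.rt_mem hij (s := 1) (t := -1) (Or.inl rfl) (Or.inr rfl))
    rw [real_inner_comm, inner_rt] at ha hb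
    refine ⟨a + b, ?_⟩
    push_cast at ha hb ⊢
    linarith
  choose Y hY using hYex
  have hye : ∀ i, (inner ℝ y (e i) : ℝ) = Y i / (2 * c) := by
    intro i
    rw [← hY i]
    field_simp
  have hpar : ∀ i j, Even (Y i - Y j) := by
    intro i j
    by_cases hij : i = j
    · rw [hij, sub_self]
      exact ⟨0, rfl⟩
    · obtain ⟨b, hb⟩ := hI.lev _ (F.rt_mem hij (s := 1) (t := -1) (Or.inl rfl) (Or.inr rfl))
      rw [real_inner_comm, inner_rt, hye, hye] at hb
      refine ⟨b, ?_⟩
      have h1 : ((Y i - Y j : ℤ) : ℝ) = ((b + b : ℤ) : ℝ) := by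
        push_cast at hb ⊢
        field_simp at hb
        linarith
      exact_mod_cast h1
  have hyy : 4 * c ^ 2 * (inner ℝ y y : ℝ) = ∑ i, (Y i : ℝ) ^ 2 := by
    rw [F.inner_eq hm2 hI.y_mem, Finset.mul_sum]
    refine Finset.sum_congr rfl fun i _ => ?_
    rw [hye]
    field_simp
    ring
  have hidt := hI.idt
  rw [F.finrank hm2, ← hx1] at hidt
  have hcard := F.card
  push_cast at hidt
  have hsr : (1 : ℝ) ≤ s := by exact_mod_cast h.s_pos
  have hcpos : (0 : ℝ) < (Φ.card : ℝ) := by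
    have := Finset.card_pos.2 hI.rs.nonempty
    exact_mod_cast this
  have hYne : ∃ i, Y i ≠ 0 := by
    by_contra hcon
    push Not at hcon
    have h1 : (inner ℝ y y : ℝ) = 0 := by
      have h2 : ∑ i, (Y i : ℝ) ^ 2 = 0 := Finset.sum_eq_zero fun i _ => by rw [hcon i]; norm_num
      rw [h2] at hyy
      have : (4 * c ^ 2 : ℝ) ≠ 0 := by positivity
      exact (mul_eq_zero.1 hyy).resolve_left this
    rw [h1, mul_zero] at hidt
    have : (0 : ℝ) < 8 * s * (m + Φ.card) := mul_pos (by linarith) (by linarith)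
    linarith
  have hle := F.le
  -- `2 x` in coordinates
  have hxY : ∀ (u : Fin m → ℤ) (k : ℝ), (∀ i, (inner ℝ x (e i) : ℝ) = c * u i / k) →
      (inner ℝ x y : ℝ) = ((∑ i, u i * Y i : ℤ) : ℝ) / (2 * k) := by
    intro u k hu
    rw [F.inner_eq hm2 hxsp]
    push_cast
    rw [Finset.sum_div]
    refine Finset.sum_congr rfl fun i _ => ?_
    rw [hu, hye]
    by_cases hk : k = 0
    · rw [hk]; simp
    · field_simp
  have hprod : ∀ (u : Fin m → ℤ) (k : ℝ), 0 < k → (∀ i, (inner ℝ x (e i) : ℝ) = c * u i / k) →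
      ∀ (t : ℤ), (t = 1 ∨ t = -1) → ∀ (i j : Fin m), i ≠ j → 0 ≤ (u i + t * u j) * (Y i + t * Y j) := by
    intro u k hk hu t ht i j hij
    have h1 := hx3 _ (F.rt_mem hij (s := 1) (t := t) (Or.inl rfl) ht)
    rw [real_inner_comm y (rt e c 1 t i j), inner_rt, inner_rt, hu, hu, hye, hye] at h1
    have h2 : c * (((1 : ℤ) : ℝ) * (c * u i / k) + (t : ℝ) * (c * u j / k)) *
        (c * (((1 : ℤ) : ℝ) * (Y i / (2 * c)) + (t : ℝ) * (Y j / (2 * c)))) =
        c ^ 2 / (2 * k) * (((u i + t * u j) * (Y i + t * Y j) : ℤ) : ℝ) := by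
      push_cast
      field_simp
    rw [h2] at h1
    have h4 : (0 : ℝ) ≤ (((u i + t * u j) * (Y i + t * Y j) : ℤ) : ℝ) := by
      by_contra hcon
      push Not at hcon
      have : c ^ 2 / (2 * k) * (((u i + t * u j) * (Y i + t * Y j) : ℤ) : ℝ) < 0 :=
        mul_neg_of_pos_of_neg (by positivity) hcon
      linarith
    exact_mod_cast h4
  have hlev1 : (inner ℝ x y : ℝ) ≤ 1 := by
    rcases h3 x hx with h | h | h <;> rw [h] <;> norm_num
  have hlevi : ∃ k : ℤ, (inner ℝ x y : ℝ) = k := by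
    rcases h3 x hx with h | h | h
    · exact ⟨-1, by rw [h]; norm_num⟩
    · exact ⟨0, by rw [h]; norm_num⟩
    · exact ⟨1, by rw [h]; norm_num⟩
  rcases F.int_or hI.sat hm2 hI.l_mem with ⟨z0, hz0⟩ | ⟨z0, hz0⟩
  · -- integral coordinates
    by_cases hz1 : ∑ i, z0 i ^ 2 ≤ 1
    · rcases hI.standard43 F (by omega) z0 hz0 hz1 with h | h
      · exact Or.inr (Or.inl h)
      · exact Or.inr (Or.inr (Or.inl h))
    have hz2 : 2 ≤ ∑ i, z0 i ^ 2 := by omega
    obtain ⟨z, hz⟩ := F.int_all43 hI.sat hI.l_mem z0 hz0 hx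
    have habs : ∀ i, |z i| = |z0 (σ i)| := by
      intro i
      have h1 := hσ i
      rw [hz, hz0] at h1
      exact_mod_cast h1
    have hzz : 2 ≤ ∑ i, z i ^ 2 := by
      have h1 : ∑ i, z i ^ 2 = ∑ i, z0 i ^ 2 := by
        rw [← Equiv.sum_comp σ (fun i => z0 i ^ 2)]
        refine Finset.sum_congr rfl fun i _ => ?_
        rw [← sq_abs, habs i, sq_abs]
      rw [h1]
      exact hz2
    have hxe : ∀ i, (inner ℝ x (e i) : ℝ) = c * z i / 1 := by
      intro i
      have := hz i
      unfold cx at this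
      rw [div_eq_iff hc.ne'] at this
      rw [this]
      ring
    have hP := hprod z 1 one_pos hxe
    have hsum : ∑ i, z i * Y i ≤ 2 := by
      have h1 := hxY z 1 hxe
      rw [h1] at hlev1
      have h4 : (((∑ i, z i * Y i : ℤ)) : ℝ) ≤ ((2 : ℤ) : ℝ) := by
        push_cast at hlev1 ⊢
        linarith
      exact_mod_cast h4
    have hzabs : ∑ i, |z i| = ∑ i, |z0 i| := by
      rw [← Equiv.sum_comp σ (fun i => |z0 i|)]
      exact Finset.sum_congr rfl fun i _ => habs i
    rcases core43 hm (z := z) (Y := Y) (fun i j hij => by simpa using hP 1 (Or.inl rfl) i j hij)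
      (fun i j hij => by
        have h1 := hP (-1) (Or.inr rfl) i j hij
        have h2 : (z i + -1 * z j) * (Y i + -1 * Y j) = (z i - z j) * (Y i - Y j) := by ring
        rwa [h2] at h1) hsum hpar hYne hzz with ⟨hY1, hz2'⟩ | ⟨i1, hYi, hY0, hz1'⟩
    · -- half odd grading element
      right; right; right; left
      refine ⟨F, hm, ?_, z0, hz0, by rw [← hzabs]; exact hz2'⟩
      intro i
      rw [hye, abs_div, abs_of_pos (by positivity : (0 : ℝ) < 2 * c), div_mul_cancel₀ _ (by positivity), ← Int.cast_abs,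
        hY1 i]
      norm_num
    · -- integral grading element
      right; right; right; right
      have hz01 : ∀ i, |z0 i| ≤ 1 := by
        intro i
        have h1 := habs (σ.symm i)
        rw [Equiv.apply_symm_apply] at h1
        rw [← h1]
        exact hz1' _
      have hs1 : ∑ i, z0 i ^ 2 = ∑ i, |z0 i| := by
        refine Finset.sum_congr rfl fun i _ => ?_
        rw [← sq_abs]
        have h2 : |z0 i| = 0 ∨ |z0 i| = 1 := by
          have := hz01 i
          have := abs_nonneg (z0 i)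
          omega
        rcases h2 with h2 | h2 <;> rw [h2] <;> norm_num
      refine ⟨(∑ i, |z0 i|).toNat, by omega, F, hm, ⟨i1, ?_, ?_⟩, z0, hz0, hz01, ?_⟩
      · rw [hye, abs_div, abs_of_pos (by positivity : (0 : ℝ) < 2 * c), ← Int.cast_abs, hYi]
        field_simp
        norm_num
      · intro j hj
        rw [hye, hY0 j hj]
        simp
      · rw [Int.toNat_of_nonneg (Finset.sum_nonneg fun i _ => abs_nonneg _)]
  · -- half odd coordinates
    left
    -- the coordinates of `x` are half odd as well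
    have hxh : ∃ w : Fin m → ℤ, (∀ i, Odd (w i)) ∧ ∀ i, cx e c x i = w i / 2 := by
      have h1 : ∀ i, ∃ w : ℤ, Odd w ∧ cx e c x i = w / 2 := by
        intro i
        have h2 := hσ i
        rw [hz0 (σ i)] at h2
        rcases abs_eq_abs.1 h2 with h4 | h4
        · exact ⟨2 * z0 (σ i) + 1, ⟨z0 (σ i), rfl⟩, by rw [h4]; push_cast; ring⟩
        · exact ⟨-(2 * z0 (σ i) + 1), ⟨-z0 (σ i) - 1, by ring⟩, by rw [h4]; push_cast; ring⟩
      choose w hw1 hw2 using h1
      exact ⟨w, hw1, hw2⟩
    obtain ⟨w, hwo, hw⟩ := hxh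
    have hxe : ∀ i, (inner ℝ x (e i) : ℝ) = c * w i / 2 := by
      intro i
      have := hw i
      unfold cx at this
      rw [div_eq_iff hc.ne'] at this
      rw [this]
      ring
    have hP := hprod w 2 two_pos hxe
    have hxy := hxY w 2 hxe
    have hsum : ∑ i, w i * Y i ≤ 4 := by
      rw [hxy] at hlev1
      have h4 : (((∑ i, w i * Y i : ℤ)) : ℝ) ≤ ((4 : ℤ) : ℝ) := by
        push_cast at hlev1 ⊢
        linarith
      exact_mod_cast h4
    have h4 : (4 : ℤ) ∣ ∑ i, w i * Y i := by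
      obtain ⟨k, hk⟩ := hlevi
      refine ⟨k, ?_⟩
      have h5 : (((∑ i, w i * Y i : ℤ)) : ℝ) = ((4 * k : ℤ) : ℝ) := by
        rw [hxy] at hk
        push_cast at hk ⊢
        linarith
      exact_mod_cast h5
    obtain ⟨hw1, hY2⟩ := core_half hm hwo (fun i j hij => by simpa using hP 1 (Or.inl rfl) i j hij)
      (fun i j hij => by
        have h1 := hP (-1) (Or.inr rfl) i j hij
        have h2 : (w i + -1 * w j) * (Y i + -1 * Y j) = (w i - w j) * (Y i - Y j) := by ring
        rwa [h2] at h1) hsum h4 hpar hYne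
    -- the long roots of type `C`
    have hd2 : d ≠ 2 := by
      intro hd
      let i0 : Fin m := ⟨0, by omega⟩
      have ha : ((d : ℝ) * c) • e i0 ∈ Φ := (F.mem _).2 (Or.inr ⟨by omega, i0, Or.inl rfl⟩)
      obtain ⟨q, hq⟩ := hI.sat.int _ ha x hx
      unfold co at hq
      rw [inner_smul_right, inner_smul_right, inner_smul_left, F.inner_e, if_pos rfl, hxe, hd] at hq
      simp only [conj_trivial] at hq
      have h1 : ((w i0 : ℤ) : ℝ) = ((2 * q : ℤ) : ℝ) := by
        push_cast at hq ⊢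
        field_simp at hq
        linarith
      have h2 : w i0 = 2 * q := by exact_mod_cast h1
      obtain ⟨k, hk⟩ := hwo i0
      omega
    have hcas := cas_half F hm2 hxsp (fun i => by
      rw [hw i, abs_div, ← Int.cast_abs, hw1 i]
      norm_num)
    rw [hcas] at hidt
    have hdd : (m : ℝ) * (2 * m - 1 + 2 * d) = m + Φ.card := by
      rw [hcard]
      have : d = 0 ∨ d = 1 := by omega
      rcases this with hd | hd
      · rw [hd, if_pos rfl]
        push_cast
        ring
      · rw [hd, if_neg one_ne_zero]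
        push_cast
        ring
    rw [hdd] at hidt
    have hpos : (0 : ℝ) < m + Φ.card := by linarith
    have hid2 : (n : ℝ) * (4 * c ^ 2 * inner ℝ y y) * (m + Φ.card) = 32 * s * (m + Φ.card) := by
      linear_combination 4 * hidt
    have hid3 : (n : ℝ) * ∑ i, (Y i : ℝ) ^ 2 = 32 * s := by
      rw [← hyy]
      exact mul_right_cancel₀ hpos.ne' hid2
    rcases hY2 with hY2 | hY2
    · exfalso
      have h1 : ∑ i, (Y i : ℝ) ^ 2 = 16 := by exact_mod_cast hY2
      rw [h1] at hid3
      have h2 : (n : ℝ) = ((2 * s : ℕ) : ℝ) := by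
        push_cast
        linarith
      have h5 : n = 2 * s := by exact_mod_cast h2
      have := h.h_pos
      omega
    · have h1 : ∑ i, (Y i : ℝ) ^ 2 = 8 := by exact_mod_cast hY2
      rw [h1] at hid3
      have h2 : (n : ℝ) = ((4 * s : ℕ) : ℝ) := by
        push_cast
        linarith
      exact_mod_cast h2

end AG
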